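import Mathlib

set_option autoImplicit false
set_option linter.unusedSectionVars false

/-!
# Hulls of finitely many compact convex sets: coverings
-/

namespace Pool.Agent.R753.HS

open scoped Topology
open Metric Filter

variable {E : Type} [NormedAddCommGroup E] [NormedSpace ℝ E]
variable {ι : Type} [Fintype ι] [DecidableEq ι]

/-- The set of the convex combinations `∑ λ_i a_i`, `a_i ∈ F_i`. -/
def comb (F : ι → Set E) : Set E :=
  (fun p : (ι → ℝ) × (ι → E) => ∑ i, p.1 i • p.2 i) '' (stdSimplex ℝ ι ×ˢ Set.univ.pi F)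

lemma mem_comb {F : ι → Set E} {x : E} :
    x ∈ comb F ↔ ∃ (l : ι → ℝ) (a : ι → E), (∀ i, 0 ≤ l i) ∧ ∑ i, l i = 1 ∧ (∀ i, a i ∈ F i) ∧
      x = ∑ i, l i • a i := by
  constructor
  · rintro ⟨⟨l, a⟩, ⟨⟨h1, h2⟩, h3⟩, rfl⟩
    exact ⟨l, a, h1, h2, fun i => h3 i (Set.mem_univ i), rfl⟩
  · rintro ⟨l, a, h1, h2, h3, rfl⟩
    exact ⟨(l, a), ⟨⟨h1, h2⟩, fun i _ => h3 i⟩, rfl⟩

lemma comb_compact {F : ι → Set E} (hF : ∀ i, IsCompact (F i)) : IsCompact (comb F) := by
  refine ((isCompact_stdSimplex ℝ ι).prod (isCompact_univ_pi hF)).image ?_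
  fun_prop

lemma comb_convex {F : ι → Set E} (hF : ∀ i, Convex ℝ (F i)) : Convex ℝ (comb F) := by
  intro x hx y hy s t hs ht hst
  rw [mem_comb] at hx hy ⊢
  obtain ⟨l, a, hl, hl1, ha, rfl⟩ := hx
  obtain ⟨m, b, hm, hm1, hb, rfl⟩ := hy
  have key : ∀ i, ∃ c ∈ F i, (s * l i + t * m i) • c = s • (l i • a i) + t • (m i • b i) := by
    intro i
    have h0 : 0 ≤ s * l i := mul_nonneg hs (hl i)
    have h0' : 0 ≤ t * m i := mul_nonneg ht (hm i)
    rcases eq_or_lt_of_le (add_nonneg h0 h0') with h | h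
    · have h1 : s * l i = 0 := by linarith
      have h2 : t * m i = 0 := by linarith
      refine ⟨a i, ha i, ?_⟩
      rw [smul_smul, smul_smul, h1, h2]
      simp
    · refine ⟨((s * l i + t * m i)⁻¹ * (s * l i)) • a i + ((s * l i + t * m i)⁻¹ * (t * m i)) • b i,
        hF i (ha i) (hb i) (by positivity) (by positivity) ?_, ?_⟩
      · rw [← mul_add, inv_mul_cancel₀ h.ne']
      · rw [smul_add, smul_smul, smul_smul, smul_smul, smul_smul, mul_inv_cancel_left₀ h.ne',
          mul_inv_cancel_left₀ h.ne']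
  choose c hc hce using key
  refine ⟨fun i => s * l i + t * m i, c, fun i => ?_, ?_, hc, ?_⟩
  · exact add_nonneg (mul_nonneg hs (hl i)) (mul_nonneg ht (hm i))
  · rw [Finset.sum_add_distrib, ← Finset.mul_sum, ← Finset.mul_sum, hl1, hm1]
    simpa using hst
  · rw [Finset.smul_sum, Finset.smul_sum, ← Finset.sum_add_distrib]
    exact Finset.sum_congr rfl fun i _ => (hce i).symm

lemma hull_eq_comb {F : ι → Set E} (hF : ∀ i, Convex ℝ (F i)) (hn : ∀ i, (F i).Nonempty) :
    convexHull ℝ (⋃ i, F i) = comb F := by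
  refine subset_antisymm (convexHull_min ?_ (comb_convex hF)) ?_
  · intro x hx
    obtain ⟨i, hi⟩ := Set.mem_iUnion.1 hx
    choose b hb using hn
    rw [mem_comb]
    refine ⟨fun j => if j = i then 1 else 0, Function.update b i x, fun j => ?_, ?_, fun j => ?_, ?_⟩
    · dsimp only; split_ifs <;> norm_num
    · simp
    · by_cases h : j = i
      · subst h; simpa using hi
      · rw [Function.update_of_ne h]; exact hb j
    · rw [Finset.sum_eq_single i]
      · simp
      · intro j _ hj
        simp [hj]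
      · intro h; exact absurd (Finset.mem_univ i) h
  · intro x hx
    rw [mem_comb] at hx
    obtain ⟨l, a, hl, hl1, ha, rfl⟩ := hx
    exact (convex_convexHull ℝ _).sum_mem (fun i _ => hl i) hl1 fun i _ =>
      subset_convexHull ℝ _ (Set.mem_iUnion.2 ⟨i, ha i⟩)

/-- Relative interior points. -/
def Ri (F : Set E) (c : E) : Prop := c ∈ F ∧ ∀ a ∈ F, ∃ s : ℝ, 0 < s ∧ c + s • (c - a) ∈ F

/-- Combinations of relative interior points, with positive weights, are interior points. -/
lemma interior_of_ri {F : ι → Set E} (hF : ∀ i, Convex ℝ (F i)) {K : Set E} (hK : K = comb F)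
    (hKi : (interior K).Nonempty) {μ : ι → ℝ} {c : ι → E} (hμ : ∀ i, 0 < μ i)
    (hμ1 : ∑ i, μ i = 1) (hc : ∀ i, Ri (F i) (c i)) : ∑ i, μ i • c i ∈ interior K := by
  have hKc : Convex ℝ K := by rw [hK]; exact comb_convex hF
  obtain ⟨w, hw⟩ := hKi
  have hwK : w ∈ comb F := by rw [← hK]; exact interior_subset hw
  obtain ⟨ω, a, hω, hω1, ha, hwe⟩ := mem_comb.1 hwK
  choose hcF s hs hsF using fun i => (hc i)
  have hs' := fun i => hs i (a i) (ha i)
  have hsF' := fun i => hsF i (a i) (ha i)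
  set σ : ι → ℝ := fun i => s i (a i) (ha i) with hσ
  have hσ0 : ∀ i, 0 < σ i := hs'
  have hne : (Finset.univ : Finset ι).Nonempty := by
    by_contra h
    rw [Finset.not_nonempty_iff_eq_empty] at h
    rw [h] at hμ1
    simp at hμ1
  obtain ⟨i₀, -, hi₀⟩ := Finset.exists_min_image Finset.univ
    (fun i => σ i * μ i / (1 + σ i)) hne
  set θ : ℝ := min (σ i₀ * μ i₀ / (1 + σ i₀)) (1 / 2) with hθ
  have hθ0 : 0 < θ := by
    have := hσ0 i₀
    have := hμ i₀
    refine lt_min ?_ (by norm_num)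
    positivity
  have hθ1 : θ ≤ 1 / 2 := min_le_right _ _
  have hω1' : ∀ i, ω i ≤ 1 := fun i => by
    rw [← hω1]
    exact Finset.single_le_sum (f := ω) (fun j _ => hω j) (Finset.mem_univ i)
  have h1 : ∀ i, θ * ω i * (1 + σ i) ≤ σ i * μ i := by
    intro i
    have h2 : θ ≤ σ i * μ i / (1 + σ i) := (min_le_left _ _).trans (hi₀ i (Finset.mem_univ i))
    have h3 : 0 < 1 + σ i := by have := hσ0 i; linarith
    rw [le_div_iff₀ h3] at h2
    have h4 : θ * ω i ≤ θ := by nlinarith [hω1' i, hω i]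
    nlinarith
  have h2 : ∀ i, 0 < μ i - θ * ω i := by
    intro i
    have h3 : 0 < 1 + σ i := by have := hσ0 i; linarith
    have h4 := h1 i
    have h5 := hμ i
    by_contra h6
    push Not at h6
    nlinarith
  have h3 : ∀ i, ∃ d ∈ F i, (μ i - θ * ω i) • d = μ i • c i - (θ * ω i) • a i := by
    intro i
    set r : ℝ := θ * ω i / (μ i - θ * ω i) with hr
    have hr0 : 0 ≤ r := div_nonneg (mul_nonneg hθ0.le (hω i)) (h2 i).le
    have hr1 : r ≤ σ i := by
      rw [hr, div_le_iff₀ (h2 i)]
      nlinarith [h1 i]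
    refine ⟨c i + r • (c i - a i), ?_, ?_⟩
    · have e : c i + r • (c i - a i) = (1 - r / σ i) • c i +
          (r / σ i) • (c i + σ i • (c i - a i)) := by
        rw [smul_add, smul_smul, div_mul_cancel₀ r (hσ0 i).ne', sub_smul, one_smul]
        abel
      rw [e]
      refine hF i (hcF i) (hsF' i) ?_ ?_ (by ring)
      · rw [sub_nonneg, div_le_one (hσ0 i)]; exact hr1
      · exact div_nonneg hr0 (hσ0 i).le
    · rw [smul_add, smul_smul, hr, mul_div_cancel₀ _ (h2 i).ne']
      module
  choose d hd hde using h3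
  have hp : (∑ i, ((1 - θ)⁻¹ * (μ i - θ * ω i)) • d i) ∈ K := by
    rw [hK, mem_comb]
    refine ⟨_, d, fun i => mul_nonneg (by rw [inv_nonneg]; linarith) (h2 i).le, ?_, hd, rfl⟩
    rw [← Finset.mul_sum, Finset.sum_sub_distrib, ← Finset.mul_sum, hμ1, hω1, mul_one,
      inv_mul_cancel₀ (by linarith)]
  have hx : ∑ i, μ i • c i = (1 - θ) • (∑ i, ((1 - θ)⁻¹ * (μ i - θ * ω i)) • d i) + θ • w := by
    rw [hwe, Finset.smul_sum, Finset.smul_sum, ← Finset.sum_add_distrib]
    refine Finset.sum_congr rfl fun i _ => ?_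
    rw [smul_smul, ← mul_assoc, mul_inv_cancel₀ (by linarith), one_mul, hde, smul_smul]
    abel
  rw [hx]
  exact hKc.combo_self_interior_mem_interior hp hw (by linarith) hθ0 (by ring)

lemma ri_combo {F : Set E} (hF : Convex ℝ F) {a b : E} (ha : a ∈ F) (hb : Ri F b) {s : ℝ}
    (hs0 : 0 < s) (hs1 : s ≤ 1) : Ri F ((1 - s) • a + s • b) := by
  refine ⟨hF ha hb.1 (by linarith) hs0.le (by ring), fun a' ha' => ?_⟩
  obtain ⟨s₁, hs₁, h₁⟩ := hb.2 a' ha'
  have h1 : 0 < 1 + s₁ := by linarith
  set r : ℝ := s * s₁ / (1 + s₁) with hr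
  have hr0 : 0 < r := by positivity
  refine ⟨r, hr0, ?_⟩
  have h2 : ((1 - s) * (1 + r)) • a + (s * (1 + r) / (1 + s₁)) • (b + s₁ • (b - a')) +
      (r * r) • a' ∈ F := by
    have h3 := hF.sum_mem (t := (Finset.univ : Finset (Fin 3)))
      (w := ![(1 - s) * (1 + r), s * (1 + r) / (1 + s₁), r * r])
      (z := ![a, b + s₁ • (b - a'), a']) (by
        intro i _
        fin_cases i
        · exact mul_nonneg (by linarith) (by linarith)
        · show 0 ≤ s * (1 + r) / (1 + s₁)
          positivity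
        · show 0 ≤ r * r
          positivity) (by
        rw [Fin.sum_univ_three]
        show (1 - s) * (1 + r) + s * (1 + r) / (1 + s₁) + r * r = 1
        rw [hr]
        field_simp
        ring) (by
        intro i _
        fin_cases i
        · exact ha
        · exact h₁
        · exact ha')
    rw [Fin.sum_univ_three] at h3
    exact h3
  have h4 : s * (1 + r) / (1 + s₁) * (1 + s₁) = s * (1 + r) := by field_simp
  have h5 : s * (1 + r) / (1 + s₁) * s₁ = r * (1 + r) := by rw [hr]; field_simp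
  have h6 : (s * (1 + r) / (1 + s₁)) • (b + s₁ • (b - a')) =
      (s * (1 + r)) • b - (r * (1 + r)) • a' := by
    have h7 : b + s₁ • (b - a') = (1 + s₁) • b - s₁ • a' := by module
    rw [h7, smul_sub, smul_smul, smul_smul, h4, h5]
  rw [h6] at h2
  convert h2 using 1
  module

/-- **Hulls.** The general covering lemma. -/
theorem cover {F : ι → Set E} (hF : ∀ i, Convex ℝ (F i)) {K : Set E} (hK : K = comb F)
    (hKi : (interior K).Nonempty) (b : ι → E) (hb : ∀ i, Ri (F i) (b i)) (T : ι → Finset E)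
    (hT : ∀ i, ∃ ρ : ℝ, 0 < ρ ∧ ∀ a ∈ F i, ∃ t ∈ T i, ∀ l : ℝ, 0 < l → l ≤ 1 →
      ∀ σ : ℝ, 0 ≤ σ → σ ≤ l * ρ → Ri (F i) (a - l • t + σ • (a - b i))) :
    ∃ S : Finset E, S.card ≤ ∑ i, (T i).card ∧ K ⊆ ⋃ v ∈ S, (fun x => v + x) '' interior K := by
  classical
  choose ρ hρ hgain using hT
  set k : ℝ := (Fintype.card ι : ℝ) with hk
  set η : ι → ℝ := fun i => min (1 / (2 * k ^ 2)) (ρ i / (4 * k ^ 2)) with hη
  set vec : ι → E → E := fun i t => η i • (∑ j, b j) - (k * η i) • b i - (1 / (4 * k)) • t with hvec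
  refine ⟨Finset.univ.biUnion fun i => (T i).image fun t => -(vec i t), ?_, ?_⟩
  · refine Finset.card_biUnion_le.trans (Finset.sum_le_sum fun i _ => Finset.card_image_le)
  intro x hx
  rw [hK, mem_comb] at hx
  obtain ⟨l, a, hl, hl1, ha, rfl⟩ := hx
  have hne : (Finset.univ : Finset ι).Nonempty := by
    by_contra h
    rw [Finset.not_nonempty_iff_eq_empty] at h
    rw [h] at hl1
    simp at hl1
  have hk1 : 1 ≤ k := by
    have : 0 < Fintype.card ι := Finset.card_pos.2 hne
    rw [hk]
    exact_mod_cast this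
  have hk0 : 0 < k := by linarith
  obtain ⟨i, -, hi⟩ : ∃ i ∈ (Finset.univ : Finset ι), 1 / k ≤ l i := by
    by_contra h
    push Not at h
    have := Finset.sum_lt_sum_of_nonempty hne h
    rw [hl1, Finset.sum_const, Finset.card_univ, nsmul_eq_mul, ← hk, mul_one_div,
      div_self hk0.ne'] at this
    exact lt_irrefl _ this
  obtain ⟨t, ht, hgt⟩ := hgain i (a i) (ha i)
  refine Set.mem_iUnion₂.2 ⟨-(vec i t), Finset.mem_biUnion.2 ⟨i, Finset.mem_univ i,
    Finset.mem_image_of_mem _ ht⟩, (∑ j, l j • a j) + vec i t, ?_, by simp⟩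
  have hη0 : 0 < η i := lt_min (by positivity) (by have := hρ i; positivity)
  have hη1 : k * η i ≤ 1 / (2 * k) := by
    have : η i ≤ 1 / (2 * k ^ 2) := min_le_left _ _
    calc k * η i ≤ k * (1 / (2 * k ^ 2)) := by gcongr
      _ = 1 / (2 * k) := by field_simp
  have hη2 : k * η i ≤ 1 / (4 * k) * ρ i := by
    have : η i ≤ ρ i / (4 * k ^ 2) := min_le_right _ _
    calc k * η i ≤ k * (ρ i / (4 * k ^ 2)) := by gcongr
      _ = 1 / (4 * k) * ρ i := by field_simp
  set m : ℝ := l i + η i - k * η i with hm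
  have hm0 : 1 / (2 * k) ≤ m := by
    have h1 : 1 / k = 1 / (2 * k) + 1 / (2 * k) := by field_simp; norm_num
    linarith
  have hmpos : 0 < m := lt_of_lt_of_le (by positivity) hm0
  -- the new point of `F i`
  set ci : E := a i - (m⁻¹ * (1 / (4 * k))) • t + (m⁻¹ * (k * η i - η i)) • (a i - b i) with hci
  have hciRi : Ri (F i) ci := by
    refine hgt _ (by positivity) ?_ _ ?_ ?_
    · rw [inv_mul_le_iff₀ hmpos, mul_one]
      refine le_trans ?_ hm0
      rw [div_le_div_iff₀ (by positivity) (by positivity)]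
      linarith
    · have : 0 ≤ k * η i - η i := by nlinarith
      positivity
    · rw [mul_assoc]
      refine mul_le_mul_of_nonneg_left ?_ (inv_nonneg.2 hmpos.le)
      linarith
  have hcie : m • ci = l i • a i + η i • b i - (k * η i) • b i - (1 / (4 * k)) • t := by
    rw [hci, smul_add, smul_sub, smul_smul, smul_smul, mul_inv_cancel_left₀ hmpos.ne',
      mul_inv_cancel_left₀ hmpos.ne', hm]
    module
  have hcj : ∀ j, Ri (F j) ((l j + η i)⁻¹ • (l j • a j + η i • b j)) := by
    intro j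
    have h1 : 0 < l j + η i := by have := hl j; linarith
    have h2 := ri_combo (hF j) (ha j) (hb j) (s := (l j + η i)⁻¹ * η i) (by positivity) (by
      rw [inv_mul_le_iff₀ h1, mul_one]; have := hl j; linarith)
    convert h2 using 1
    have h3 : 1 - (l j + η i)⁻¹ * η i = (l j + η i)⁻¹ * l j := by field_simp; ring
    rw [h3, smul_add, smul_smul, smul_smul]
  set μ : ι → ℝ := Function.update (fun j => l j + η i) i m with hμ
  set c : ι → E := Function.update (fun j => (l j + η i)⁻¹ • (l j • a j + η i • b j)) i ci with hc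
  have hμ0 : ∀ j, 0 < μ j := by
    intro j
    by_cases h : j = i
    · subst h; rw [hμ, Function.update_self]; exact hmpos
    · rw [hμ, Function.update_of_ne h]; have := hl j; linarith
  have hμe : ∀ j, μ j = l j + η i - (if j = i then k * η i else 0) := by
    intro j
    by_cases h : j = i
    · subst h; rw [hμ, Function.update_self, if_pos rfl]
    · rw [hμ, Function.update_of_ne h, if_neg h, sub_zero]
  have hμ1 : ∑ j, μ j = 1 := by
    rw [Finset.sum_congr rfl fun j _ => hμe j, Finset.sum_sub_distrib, Finset.sum_add_distrib, hl1,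
      Finset.sum_const, Finset.card_univ, nsmul_eq_mul, Finset.sum_ite_eq' Finset.univ i]
    simp [hk]
  have hcR : ∀ j, Ri (F j) (c j) := by
    intro j
    by_cases h : j = i
    · subst h; rw [hc, Function.update_self]; exact hciRi
    · rw [hc, Function.update_of_ne h]; exact hcj j
  have hce : ∀ j, μ j • c j = l j • a j + η i • b j -
      (if j = i then (k * η i) • b i + (1 / (4 * k)) • t else 0) := by
    intro j
    by_cases h : j = i
    · subst h
      rw [hμ, hc, Function.update_self, Function.update_self, hcie, if_pos rfl]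
      abel
    · have h1 : 0 < l j + η i := by have := hl j; linarith
      rw [hμ, hc, Function.update_of_ne h, Function.update_of_ne h, if_neg h, sub_zero,
        smul_inv_smul₀ h1.ne']
  have hsum : ∑ j, μ j • c j = (∑ j, l j • a j) + vec i t := by
    rw [Finset.sum_congr rfl fun j _ => hce j, Finset.sum_sub_distrib, Finset.sum_add_distrib,
      Finset.sum_ite_eq' Finset.univ i, ← Finset.smul_sum, hvec]
    simp only [Finset.mem_univ, if_true]
    abel
  rw [← hsum]
  exact interior_of_ri hF hK hKi hμ0 hμ1 hcR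

end Pool.Agent.R753.HS
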