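import Pool.Agent.R753.HS.A
import Pool.Agent.R753.PR.A

set_option autoImplicit false
set_option linter.unusedSectionVars false

/-!
# Hulls of affine images of convex bodies: coverings
-/

namespace Pool.Agent.R753.HS

open scoped Topology
open Metric Filter

variable {E : Type} [NormedAddCommGroup E] [NormedSpace ℝ E] [FiniteDimensional ℝ E]
variable {U : Type} [NormedAddCommGroup U] [NormedSpace ℝ U] [FiniteDimensional ℝ U]

lemma aff_comb (A : U →ᵃ[ℝ] E) (c a : U) (s : ℝ) : A (c + s • (c - a)) = A c + s • (A c - A a) := by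
  have h1 : c + s • (c - a) = AffineMap.lineMap c a (-s) := by
    rw [AffineMap.lineMap_apply, vsub_eq_sub, vadd_eq_add]
    module
  rw [h1, AffineMap.apply_lineMap, AffineMap.lineMap_apply, vsub_eq_sub, vadd_eq_add]
  module

lemma aff_gain (A : U →ᵃ[ℝ] E) (a b t : U) (l σ : ℝ) :
    A (a - l • t + σ • (a - b)) = A a - l • A.linear t + σ • (A a - A b) := by
  have h1 : a - l • t + σ • (a - b) = (-(l • t) + σ • (a - b)) +ᵥ a := by
    rw [vadd_eq_add]; abel
  rw [h1, A.map_vadd, vadd_eq_add, map_add, map_neg, map_smul, map_smul]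
  have h2 : A.linear (a - b) = A a - A b := A.linearMap_vsub a b
  rw [h2]
  abel

lemma ri_image (A : U →ᵃ[ℝ] E) {C : Set U} {c : U} (hc : c ∈ interior C) : Ri (A '' C) (A c) := by
  refine ⟨⟨c, interior_subset hc, rfl⟩, ?_⟩
  rintro _ ⟨a, -, rfl⟩
  have hcont : Tendsto (fun s : ℝ => c + s • (c - a)) (𝓝 0) (𝓝 c) := by
    have : Continuous fun s : ℝ => c + s • (c - a) := by fun_prop
    have h := this.tendsto 0
    simpa using h
  have hev : ∀ᶠ s : ℝ in 𝓝 0, c + s • (c - a) ∈ C :=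
    hcont.eventually (mem_interior_iff_mem_nhds.1 hc)
  obtain ⟨r, hr, hs⟩ := Metric.eventually_nhds_iff.1 hev
  refine ⟨r / 2, by positivity, c + (r / 2) • (c - a), hs ?_, aff_comb A c a _⟩
  rw [dist_zero_right, Real.norm_eq_abs, abs_of_pos (by positivity)]
  linarith

lemma gain_image (A : U →ᵃ[ℝ] E) {C : Set U} (hC : Convex ℝ C) (kC : IsCompact C)
    (b : U) {T : Finset U} (hT : C ⊆ ⋃ t ∈ T, (fun x => t + x) '' interior C) [DecidableEq E] :
    ∃ ρ : ℝ, 0 < ρ ∧ ∀ a ∈ A '' C, ∃ t ∈ T.image A.linear, ∀ l : ℝ, 0 < l → l ≤ 1 →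
      ∀ σ : ℝ, 0 ≤ σ → σ ≤ l * ρ → Ri (A '' C) (a - l • t + σ • (a - A b)) := by
  obtain ⟨ρ, hρ, hg⟩ := PR.gain hC kC hT
  obtain ⟨R, hR⟩ := kC.isBounded.subset_closedBall b
  set R' : ℝ := max R 0 + 1 with hR'
  have hR0 : 0 < R' := by have := le_max_right R 0; linarith
  refine ⟨ρ / (2 * R'), by positivity, ?_⟩
  rintro _ ⟨a, ha, rfl⟩
  obtain ⟨t, ht, h⟩ := hg a ha
  refine ⟨A.linear t, Finset.mem_image_of_mem _ ht, fun l hl0 hl1 σ hσ0 hσ1 => ?_⟩
  rw [← aff_gain]
  refine ri_image A (mem_interior_iff_mem_nhds.2 ?_)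
  rw [Metric.mem_nhds_iff]
  refine ⟨l * ρ / 2, by positivity, fun y hy => ?_⟩
  have h1 : ‖a - b‖ ≤ R' := by
    have h2 : a ∈ closedBall b R := hR ha
    rw [mem_closedBall, dist_eq_norm] at h2
    have := le_max_left R 0
    linarith
  have h3 : ‖σ • (a - b)‖ ≤ l * ρ / 2 := by
    rw [norm_smul, Real.norm_eq_abs, abs_of_nonneg hσ0]
    calc σ * ‖a - b‖ ≤ (l * (ρ / (2 * R'))) * R' := by gcongr
      _ = l * ρ / 2 := by field_simp
  rw [mem_ball, dist_eq_norm] at hy
  have h4 := h l hl0 hl1 (σ • (a - b) + (y - (a - l • t + σ • (a - b)))) (by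
    refine (norm_add_le _ _).trans ?_
    linarith)
  convert h4 using 1
  abel

variable {ι : Type} [Fintype ι] [DecidableEq ι]

/-- **Hulls of affine images of convex bodies.** -/
theorem hulls {U : ι → Type} [∀ i, NormedAddCommGroup (U i)] [∀ i, NormedSpace ℝ (U i)]
    [∀ i, FiniteDimensional ℝ (U i)] (A : ∀ i, U i →ᵃ[ℝ] E) (C : ∀ i, Set (U i))
    (hC : ∀ i, Convex ℝ (C i)) (kC : ∀ i, IsCompact (C i)) (iC : ∀ i, (interior (C i)).Nonempty)
    {K : Set E} (hK : K = convexHull ℝ (⋃ i, A i '' C i)) (hKi : (interior K).Nonempty) :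
    Convex ℝ K ∧ IsCompact K ∧ ∀ N : ι → ℕ,
      (∀ i, ∃ T : Finset (U i), T.card ≤ N i ∧ C i ⊆ ⋃ t ∈ T, (fun x => t + x) '' interior (C i)) →
      ∃ S : Finset E, S.card ≤ ∑ i, N i ∧ K ⊆ ⋃ v ∈ S, (fun x => v + x) '' interior K := by
  classical
  have hF : ∀ i, Convex ℝ (A i '' C i) := fun i => (hC i).affine_image (A i)
  have hn : ∀ i, (A i '' C i).Nonempty := fun i => ((iC i).mono interior_subset).image _
  rw [hull_eq_comb hF hn] at hK
  refine ⟨?_, ?_, fun N hN => ?_⟩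
  · rw [hK]; exact comb_convex hF
  · rw [hK]
    exact comb_compact fun i => (kC i).image (A i).continuous_of_finiteDimensional
  · choose T hTN hT using hN
    choose b hb using iC
    obtain ⟨S, hS, hcov⟩ := cover hF hK hKi (fun i => A i (b i)) (fun i => ri_image (A i) (hb i))
      (fun i => (T i).image (A i).linear) (fun i => gain_image (A i) (hC i) (kC i) (b i) (hT i))
    refine ⟨S, hS.trans (Finset.sum_le_sum fun i _ => ?_), hcov⟩
    exact Finset.card_image_le.trans (hTN i)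

end Pool.Agent.R753.HS
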