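import Pool.Agent.R753.HS.B
import Pool.Agent.R753.SJ.H
import Pool.Agent.Results.MP_eba1ef_gt.AllConvexBodies

set_option autoImplicit false
set_option linter.unusedSectionVars false

/-!
# Coverings of convex bodies in all dimensions
-/

namespace Pool.Agent.R753.HS

open scoped Topology
open Metric Filter

/-- the bound of the starting files -/
noncomputable def beta (d : ℕ) : ℝ :=
  if d ≤ 2 then 2 ^ d else if d = 3 then 13 else
    3 * 2 ^ d * (d * Real.log (2 * d ^ 2 + 2 * d + 1))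

lemma cover_beta {d : ℕ} {C : Set (EuclideanSpace ℝ (Fin d))} (h1 : Convex ℝ C) (h2 : IsCompact C)
    (h3 : (interior C).Nonempty) :
    ∃ T : Finset (EuclideanSpace ℝ (Fin d)), (T.card : ℝ) ≤ beta d ∧
      C ⊆ ⋃ t ∈ T, (fun x => t + x) '' interior C := by
  unfold beta
  split_ifs with h h'
  · obtain ⟨T, hT, hc⟩ := SJ.cover_le_two (V := EuclideanSpace ℝ (Fin d)) (by simp) h h1 h2 h3
    exact ⟨T, by exact_mod_cast hT, hc⟩
  · subst h'
    obtain ⟨T, hT, hc⟩ := SJ.cover_13 (V := EuclideanSpace ℝ (Fin 3)) (by simp) h1 h2 h3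
    exact ⟨T, by exact_mod_cast hT, hc⟩
  · obtain ⟨T, hc, hT⟩ := Pool.Agent.Results.MP_eba1ef_gt.AllConvexBodies.result d (by omega) C
      h1 h2 h3
    exact ⟨T, hT, hc⟩

lemma beta_lt {d m : ℕ} (hm : 2 ≤ m) (hd : d ≤ m) : beta d < 4 * m ^ 2 * 2 ^ m := by
  have hm' : (2 : ℝ) ≤ m := by exact_mod_cast hm
  have h2m : (4 : ℝ) ≤ 2 ^ m := by
    calc (4 : ℝ) = 2 ^ 2 := by norm_num
      _ ≤ 2 ^ m := pow_le_pow_right₀ (by norm_num) hm
  have h4m : (16 : ℝ) ≤ 4 * m ^ 2 := by nlinarith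
  unfold beta
  split_ifs with h h'
  · have : (2 : ℝ) ^ d ≤ 2 ^ 2 := pow_le_pow_right₀ (by norm_num) h
    nlinarith
  · nlinarith
  · have hd4 : 4 ≤ d := by omega
    have hd4' : (4 : ℝ) ≤ d := by exact_mod_cast hd4
    have hdm : (d : ℝ) ≤ m := by exact_mod_cast hd
    have h8 : Real.log 8 = 3 * Real.log 2 := by
      rw [show (8 : ℝ) = 2 ^ 3 by norm_num, Real.log_pow]; norm_num
    have hl2 := Real.log_two_lt_d9
    have hlog : Real.log (2 * d ^ 2 + 2 * d + 1) < 4 * d / 3 := by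
      have e1 : (2 * (d : ℝ) ^ 2 + 2 * d + 1) ≤ (8 * (d / 4)) ^ 2 := by nlinarith
      have e2 : Real.log (2 * (d : ℝ) ^ 2 + 2 * d + 1) ≤ Real.log ((8 * (d / 4)) ^ 2) :=
        Real.log_le_log (by positivity) e1
      rw [Real.log_pow, Real.log_mul (by norm_num) (by positivity)] at e2
      have e3 : Real.log ((d : ℝ) / 4) ≤ d / 4 - 1 := Real.log_le_sub_one_of_pos (by positivity)
      push_cast at e2
      nlinarith
    have hpow : (2 : ℝ) ^ d ≤ 2 ^ m := pow_le_pow_right₀ (by norm_num) hd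
    have hp : (0 : ℝ) < 2 ^ d := by positivity
    calc 3 * 2 ^ d * (d * Real.log (2 * (d : ℝ) ^ 2 + 2 * d + 1))
        < 3 * 2 ^ d * (d * (4 * d / 3)) := by gcongr
      _ = 4 * (d : ℝ) ^ 2 * 2 ^ d := by ring
      _ ≤ 4 * (m : ℝ) ^ 2 * 2 ^ m := by gcongr

end Pool.Agent.R753.HS
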