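import Pool.Agent.R753.HS.C

set_option autoImplicit false
set_option linter.unusedSectionVars false

/-!
# Convex bodies whose extreme points lie in few flats
-/

namespace Pool.Agent.R753.HS

open scoped Topology
open Metric Filter Module

/-- a compact convex set in the range of an affine map is an affine image of a convex body -/
lemma flatten {n m : ℕ} (f : EuclideanSpace ℝ (Fin m) →ᵃ[ℝ] EuclideanSpace ℝ (Fin n))
    {F : Set (EuclideanSpace ℝ (Fin n))} (hF : Convex ℝ F) (kF : IsCompact F) (nF : F.Nonempty)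
    (hf : F ⊆ Set.range f) :
    ∃ (e : ℕ) (A : EuclideanSpace ℝ (Fin e) →ᵃ[ℝ] EuclideanSpace ℝ (Fin n))
      (C : Set (EuclideanSpace ℝ (Fin e))), e ≤ m ∧ Convex ℝ C ∧ IsCompact C ∧
      (interior C).Nonempty ∧ A '' C = F := by
  obtain ⟨p, hp⟩ := nF
  set V : Submodule ℝ (EuclideanSpace ℝ (Fin n)) := (affineSpan ℝ F).direction with hV
  set e : ℕ := finrank ℝ V with he
  have hem : e ≤ m := by
    have h1 : affineSpan ℝ F ≤ (⊤ : AffineSubspace ℝ (EuclideanSpace ℝ (Fin m))).map f := by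
      rw [affineSpan_le]
      intro x hx
      obtain ⟨y, hy⟩ := hf hx
      exact ⟨y, trivial, hy⟩
    have h2 := AffineSubspace.direction_le h1
    rw [AffineSubspace.map_direction, AffineSubspace.direction_top] at h2
    calc e ≤ finrank ℝ (Submodule.map f.linear ⊤) := Submodule.finrank_mono h2
      _ ≤ finrank ℝ (⊤ : Submodule ℝ (EuclideanSpace ℝ (Fin m))) := Submodule.finrank_map_le _ _
      _ = m := by simp
  let φ : V ≃ₗᵢ[ℝ] EuclideanSpace ℝ (Fin e) := (stdOrthonormalBasis ℝ V).repr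
  let A : EuclideanSpace ℝ (Fin e) →ᵃ[ℝ] EuclideanSpace ℝ (Fin n) :=
    { toFun := fun x => p + ((φ.symm x : V) : EuclideanSpace ℝ (Fin n))
      linear := V.subtype ∘ₗ φ.symm.toLinearEquiv.toLinearMap
      map_vadd' := fun x v => by
        simp only [vadd_eq_add, map_add, Submodule.coe_add, LinearMap.comp_apply,
          Submodule.subtype_apply]
        show p + (((φ.symm v : V) : EuclideanSpace ℝ (Fin n)) + (φ.symm x : V)) =
          ((φ.symm v : V) : EuclideanSpace ℝ (Fin n)) + (p + (φ.symm x : V))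
        abel }
  have hAx : ∀ x, A x = p + ((φ.symm x : V) : EuclideanSpace ℝ (Fin n)) := fun x => rfl
  have hiso : Isometry A := by
    refine Isometry.of_dist_eq fun x y => ?_
    rw [hAx, hAx, dist_add_left]
    have := φ.symm.isometry.dist_eq x y
    rw [← this]
    rfl
  have hAF : A '' (A ⁻¹' F) = F := by
    refine Set.image_preimage_eq_of_subset ?_
    intro x hx
    have h1 : x - p ∈ V := by
      have := AffineSubspace.vsub_mem_direction (subset_affineSpan ℝ F hx)
        (subset_affineSpan ℝ F hp)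
      simpa using this
    refine ⟨φ ⟨x - p, h1⟩, ?_⟩
    rw [hAx, φ.symm_apply_apply]
    show p + (x - p) = x
    abel
  have hC : Convex ℝ (A ⁻¹' F) := hF.affine_preimage A
  refine ⟨e, A, A ⁻¹' F, hem, hC, hiso.isClosedEmbedding.isCompact_preimage kF, ?_, hAF⟩
  rw [hC.interior_nonempty_iff_affineSpan_eq_top]
  rw [eq_top_iff]
  intro x _
  have h1 : A x ∈ affineSpan ℝ F := by
    rw [hAx, add_comm]
    exact AffineSubspace.vadd_mem_of_mem_direction (φ.symm x).2 (subset_affineSpan ℝ F hp)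
  rw [← hAF, ← AffineSubspace.map_span] at h1
  obtain ⟨y, hy, hyx⟩ := h1
  rwa [← hiso.injective hyx]

lemma beta_mono {e d : ℕ} (h : e ≤ d) : beta e ≤ beta d := by
  have hnn : ∀ j : ℕ, 4 ≤ j → 1 ≤ Real.log (2 * (j : ℝ) ^ 2 + 2 * j + 1) := by
    intro j hj
    have hj' : (4 : ℝ) ≤ j := by exact_mod_cast hj
    rw [Real.le_log_iff_exp_le (by positivity)]
    have := Real.exp_one_lt_d9
    nlinarith
  unfold beta
  split_ifs with h1 h2 h3 h4 h5
  · exact pow_le_pow_right₀ (by norm_num) h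
  · have : (2 : ℝ) ^ e ≤ 2 ^ 2 := pow_le_pow_right₀ (by norm_num) h1
    linarith
  · have h6 : (2 : ℝ) ^ e ≤ 2 ^ 2 := pow_le_pow_right₀ (by norm_num) h1
    have h7 : 4 ≤ d := by omega
    have h8 := hnn d h7
    have h9 : (4 : ℝ) ≤ d := by exact_mod_cast h7
    have h10 : (2 : ℝ) ^ 4 ≤ 2 ^ d := pow_le_pow_right₀ (by norm_num) h7
    have h11 : (4 : ℝ) * 1 ≤ d * Real.log (2 * (d : ℝ) ^ 2 + 2 * d + 1) := by gcongr
    nlinarith
  · omega
  · exact le_rfl
  · have h7 : 4 ≤ d := by omega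
    have h8 := hnn d h7
    have h9 : (4 : ℝ) ≤ d := by exact_mod_cast h7
    have h10 : (2 : ℝ) ^ 4 ≤ 2 ^ d := pow_le_pow_right₀ (by norm_num) h7
    have h11 : (4 : ℝ) * 1 ≤ d * Real.log (2 * (d : ℝ) ^ 2 + 2 * d + 1) := by gcongr
    nlinarith
  · omega
  · omega
  · have h7 : 4 ≤ e := by omega
    have h8 := hnn e h7
    have h9 : (e : ℝ) ≤ d := by exact_mod_cast h
    gcongr
    norm_num

/-- Convex bodies whose extreme points lie in few flats. -/
theorem extreme {n k : ℕ} {K : Set (EuclideanSpace ℝ (Fin n))} (hK : Convex ℝ K)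
    (kK : IsCompact K) (iK : (interior K).Nonempty) (d : Fin k → ℕ)
    (f : ∀ i, EuclideanSpace ℝ (Fin (d i)) →ᵃ[ℝ] EuclideanSpace ℝ (Fin n))
    (hf : K.extremePoints ℝ ⊆ ⋃ i, Set.range (f i)) (N : ℕ) (hN : ∑ i, beta (d i) < N + 1) :
    ∃ S : Finset (EuclideanSpace ℝ (Fin n)), S.card ≤ N ∧
      K ⊆ ⋃ v ∈ S, (fun x => v + x) '' interior K := by
  classical
  let ι : Type := {i : Fin k // (K ∩ Set.range (f i)).Nonempty}
  have hcl : ∀ i, IsClosed (Set.range (f i)) := by
    intro i
    have h1 : Set.range (f i) = ((⊤ : AffineSubspace ℝ _).map (f i) :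
        Set (EuclideanSpace ℝ (Fin n))) := by
      ext x; simp
    rw [h1]
    exact AffineSubspace.closed_of_finiteDimensional _
  have hFc : ∀ i, Convex ℝ (K ∩ Set.range (f i)) := by
    intro i
    refine hK.inter ?_
    rw [← Set.image_univ]
    exact convex_univ.affine_image (f i)
  have hFk : ∀ i, IsCompact (K ∩ Set.range (f i)) := fun i => kK.inter_right (hcl i)
  choose e A C he hC kC iC hAC using fun i : ι =>
    flatten (f i.1) (hFc i.1) (hFk i.1) i.2 Set.inter_subset_right
  have hhull : K = convexHull ℝ (⋃ i : ι, A i '' C i) := by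
    have hsub : (⋃ i : ι, A i '' C i) ⊆ K := by
      refine Set.iUnion_subset fun i => ?_
      rw [hAC i]
      exact Set.inter_subset_left
    refine subset_antisymm ?_ (convexHull_min hsub hK)
    have hclosed : IsClosed (convexHull ℝ (⋃ i : ι, A i '' C i)) := by
      rw [hull_eq_comb (fun i => (hC i).affine_image (A i))
        (fun i => ((iC i).mono interior_subset).image _)]
      exact (comb_compact fun i => (kC i).image (A i).continuous_of_finiteDimensional).isClosed
    rw [← closure_convexHull_extremePoints kK hK]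
    refine closure_minimal (convexHull_mono ?_) hclosed
    intro x hx
    obtain ⟨i, hi⟩ := Set.mem_iUnion.1 (hf hx)
    have hne : (K ∩ Set.range (f i)).Nonempty := ⟨x, hx.1, hi⟩
    refine Set.mem_iUnion.2 ⟨⟨i, hne⟩, ?_⟩
    rw [hAC ⟨i, hne⟩]
    exact ⟨hx.1, hi⟩
  choose T hT hcov using fun i : ι => cover_beta (hC i) (kC i) (iC i)
  obtain ⟨-, -, r⟩ := hulls A C hC kC iC hhull iK
  obtain ⟨S, hS, hc⟩ := r (fun i => (T i).card) (fun i => ⟨T i, le_rfl, hcov i⟩)
  refine ⟨S, ?_, hc⟩
  have h1 : ((∑ i, (T i).card : ℕ) : ℝ) ≤ ∑ i : ι, beta (d i.1) := by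
    push_cast
    exact Finset.sum_le_sum fun i _ => (hT i).trans (beta_mono (he i))
  have h2 : ∑ i : ι, beta (d i.1) ≤ ∑ i, beta (d i) := by
    have h3 : ∀ i, 0 ≤ beta (d i) := by
      intro i
      have := beta_mono (Nat.zero_le (d i))
      have h0 : beta 0 = 1 := by simp [beta]
      linarith
    calc ∑ i : ι, beta (d i.1) = ∑ i ∈ Finset.univ.filter
          (fun i : Fin k => (K ∩ Set.range (f i)).Nonempty), beta (d i) := by
            rw [← Finset.sum_subtype_eq_sum_filter]
            refine Finset.sum_bij (fun i _ => ⟨i.1, i.2⟩) ?_ ?_ ?_ ?_ <;> simp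
      _ ≤ ∑ i, beta (d i) := Finset.sum_le_univ_sum_of_nonneg h3
  have h4 : ((∑ i, (T i).card : ℕ) : ℝ) < ((N + 1 : ℕ) : ℝ) := by
    push_cast at h1 ⊢
    linarith
  have h5 : ∑ i, (T i).card < N + 1 := by exact_mod_cast h4
  exact hS.trans (by omega)

end Pool.Agent.R753.HS
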