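import Mathlib

set_option autoImplicit false
set_option linter.unusedSectionVars false

/-!
# Smooth convex bodies in `ℝ^d` are covered by `d + 1` translates of the interior
-/

namespace Pool.Agent.R753.HS

open scoped Topology InnerProductSpace
open Metric Filter

/-- from illuminating directions to a covering -/
lemma cover_of_illum {U : Type} [NormedAddCommGroup U] [NormedSpace ℝ U] {C : Set U}
    (hC : Convex ℝ C) (kC : IsCompact C) {κ : Type} [Fintype κ] (v : κ → U)
    (h : ∀ x ∈ C, ∃ i, ∃ ε : ℝ, 0 < ε ∧ x + ε • v i ∈ interior C) :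
    ∃ T : Finset U, T.card ≤ Fintype.card κ ∧ C ⊆ ⋃ t ∈ T, (fun x => t + x) '' interior C := by
  classical
  rcases C.eq_empty_or_nonempty with hC0 | ⟨z, hz⟩
  · exact ⟨∅, by simp, by rw [hC0]; simp⟩
  have : Nonempty κ := ⟨(h z hz).choose⟩
  choose! i ε hε hi using h
  obtain ⟨s, hs, hcov⟩ := kC.elim_nhds_subcover (fun x => {y | y + ε x • v (i x) ∈ interior C})
    (fun x hx => by
      have hcont : Continuous fun y : U => y + ε x • v (i x) := by fun_prop
      exact (isOpen_interior.preimage hcont).mem_nhds (hi x hx))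
  rcases s.eq_empty_or_nonempty with hse | hsn
  · subst hse
    refine ⟨∅, by simp, fun x hx => ?_⟩
    have := hcov hx
    simp at this
  obtain ⟨x₀, hx₀, hmin⟩ := Finset.exists_min_image s ε hsn
  have hε0 : 0 < ε x₀ := hε x₀ (hs x₀ hx₀)
  refine ⟨Finset.univ.image fun j => -(ε x₀ • v j), Finset.card_image_le.trans (by simp),
    fun y hy => ?_⟩
  obtain ⟨x, hx, hxy⟩ := Set.mem_iUnion₂.1 (hcov hy)
  have hxy' : y + ε x • v (i x) ∈ interior C := hxy
  have hεx : 0 < ε x := hε x (hs x hx)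
  refine Set.mem_iUnion₂.2 ⟨-(ε x₀ • v (i x)), Finset.mem_image_of_mem _ (Finset.mem_univ _),
    y + ε x₀ • v (i x), ?_, by simp⟩
  have h1 : y + ε x₀ • v (i x) = (1 - ε x₀ / ε x) • y + (ε x₀ / ε x) • (y + ε x • v (i x)) := by
    rw [smul_add, smul_smul, div_mul_cancel₀ _ hεx.ne', sub_smul, one_smul]
    abel
  rw [h1]
  refine hC.combo_self_interior_mem_interior hy hxy' ?_ (by positivity) (by ring)
  rw [sub_nonneg, div_le_one hεx]
  exact hmin x hx

/-- Smooth convex sets: the outer normal at every point is unique up to a positive factor. -/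
def Smooth {d : ℕ} (C : Set (EuclideanSpace ℝ (Fin d))) : Prop :=
  ∀ x ∈ C, ∀ u v : EuclideanSpace ℝ (Fin d), u ≠ 0 → v ≠ 0 →
    (∀ y ∈ C, ⟪u, y⟫_ℝ ≤ ⟪u, x⟫_ℝ) → (∀ y ∈ C, ⟪v, y⟫_ℝ ≤ ⟪v, x⟫_ℝ) → ∃ c : ℝ, 0 < c ∧ v = c • u

/-- the vertices of a simplex -/
noncomputable def vert (d : ℕ) : Option (Fin d) → EuclideanSpace ℝ (Fin d)
  | none => -∑ j, EuclideanSpace.single j (1 : ℝ)
  | some j => EuclideanSpace.single j 1

lemma exists_neg {d : ℕ} {u : EuclideanSpace ℝ (Fin d)} (hu : u ≠ 0) :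
    ∃ i, ⟪u, vert d i⟫_ℝ < 0 := by
  by_contra h
  push Not at h
  have h1 : ∀ j, 0 ≤ u j := by
    intro j
    have := h (some j)
    rw [show vert d (some j) = EuclideanSpace.single j (1 : ℝ) from rfl,
      EuclideanSpace.inner_single_right] at this
    simpa using this
  have h2 : ∑ j, u j ≤ 0 := by
    have := h none
    rw [show vert d none = -∑ j, EuclideanSpace.single j (1 : ℝ) from rfl, inner_neg_right,
      inner_sum] at this
    have e : ∀ j, ⟪u, EuclideanSpace.single j (1 : ℝ)⟫_ℝ = u j := by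
      intro j
      rw [EuclideanSpace.inner_single_right]
      simp
    simp only [e] at this
    linarith
  have h3 : ∀ j, u j = 0 := by
    intro j
    have h4 : u j ≤ ∑ j, u j := Finset.single_le_sum (fun i _ => h1 i) (Finset.mem_univ j)
    linarith [h1 j]
  exact hu (by ext j; simpa using h3 j)

/-- **Smooth bodies.** -/
theorem smooth_cover {d : ℕ} {C : Set (EuclideanSpace ℝ (Fin d))} (hC : Convex ℝ C)
    (kC : IsCompact C) (iC : (interior C).Nonempty) (hs : Smooth C) :
    ∃ T : Finset (EuclideanSpace ℝ (Fin d)), T.card ≤ d + 1 ∧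
      C ⊆ ⋃ t ∈ T, (fun x => t + x) '' interior C := by
  classical
  have hcl : closure (interior C) = C := by
    rw [hC.closure_interior_eq_closure_of_nonempty_interior iC, kC.isClosed.closure_eq]
  -- functionals and vectors
  have hrep : ∀ f : EuclideanSpace ℝ (Fin d) →L[ℝ] ℝ, ∃ w : EuclideanSpace ℝ (Fin d),
      ∀ y, f y = ⟪w, y⟫_ℝ := fun f => ⟨(InnerProductSpace.toDual ℝ _).symm f, fun y => by
        rw [InnerProductSpace.toDual_symm_apply]⟩
  have key := cover_of_illum hC kC (vert d) (fun x hx => ?_)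
  · obtain ⟨T, hT, h⟩ := key
    exact ⟨T, hT.trans (by simp), h⟩
  by_cases hxi : x ∈ interior C
  · refine ⟨none, ?_⟩
    have hcont : Tendsto (fun s : ℝ => x + s • vert d none) (𝓝 0) (𝓝 x) := by
      have : Continuous fun s : ℝ => x + s • vert d none := by fun_prop
      have h := this.tendsto 0
      simpa using h
    obtain ⟨r, hr, h⟩ := Metric.eventually_nhds_iff.1
      (hcont.eventually (isOpen_interior.mem_nhds hxi))
    refine ⟨r / 2, by positivity, h ?_⟩
    rw [dist_zero_right, Real.norm_eq_abs, abs_of_pos (by positivity)]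
    linarith
  · -- a supporting functional
    obtain ⟨f, hf⟩ := geometric_hahn_banach_open_point hC.interior isOpen_interior hxi
    obtain ⟨u, hu⟩ := hrep f
    have hsupp : ∀ (w : EuclideanSpace ℝ (Fin d)) (c : ℝ),
        (∀ y ∈ interior C, ⟪w, y⟫_ℝ ≤ c) → ∀ y ∈ C, ⟪w, y⟫_ℝ ≤ c := by
      intro w c hw y hy
      rw [← hcl] at hy
      exact closure_minimal (s := interior C) (t := {y | ⟪w, y⟫_ℝ ≤ c}) hw
        (isClosed_le (by fun_prop) continuous_const) hy
    obtain ⟨a, ha⟩ := iC
    have hu0 : u ≠ 0 := by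
      rintro rfl
      have := hf a ha
      rw [hu, hu, inner_zero_left, inner_zero_left] at this
      exact lt_irrefl _ this
    have hu1 : ∀ y ∈ C, ⟪u, y⟫_ℝ ≤ ⟪u, x⟫_ℝ := by
      refine hsupp u _ fun y hy => ?_
      have := hf y hy
      rw [hu, hu] at this
      exact this.le
    obtain ⟨i, hi⟩ := exists_neg hu0
    refine ⟨i, ?_⟩
    by_contra hcon
    push Not at hcon
    -- separate the ray from the interior
    have hray : Convex ℝ ((fun s : ℝ => x + s • vert d i) '' Set.Ioi 0) := by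
      have h1 : (fun s : ℝ => x + s • vert d i) = AffineMap.lineMap x (x + vert d i) := by
        funext s
        rw [AffineMap.lineMap_apply, vsub_eq_sub, vadd_eq_add]
        simp [add_comm]
      rw [h1]
      exact (convex_Ioi 0).affine_image _
    have hdisj : Disjoint (interior C) ((fun s : ℝ => x + s • vert d i) '' Set.Ioi 0) := by
      rw [Set.disjoint_left]
      rintro _ hy ⟨s, hs, rfl⟩
      exact hcon s hs hy
    obtain ⟨g, c, hg1, hg2⟩ := geometric_hahn_banach_open hC.interior isOpen_interior hray hdisj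
    obtain ⟨w, hw⟩ := hrep g
    have hg3 : ∀ s : ℝ, 0 < s → c ≤ ⟪w, x⟫_ℝ + s * ⟪w, vert d i⟫_ℝ := by
      intro s hs
      have := hg2 _ ⟨s, hs, rfl⟩
      rw [hw, inner_add_right, inner_smul_right] at this
      exact this
    have hc1 : c ≤ ⟪w, x⟫_ℝ := by
      have hcont : Tendsto (fun s : ℝ => ⟪w, x⟫_ℝ + s * ⟪w, vert d i⟫_ℝ) (𝓝[>] 0)
          (𝓝 (⟪w, x⟫_ℝ + 0 * ⟪w, vert d i⟫_ℝ)) := by
        refine Tendsto.mono_left ?_ nhdsWithin_le_nhds
        have : Continuous fun s : ℝ => ⟪w, x⟫_ℝ + s * ⟪w, vert d i⟫_ℝ := by fun_prop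
        exact this.tendsto 0
      have h1 := ge_of_tendsto hcont
        (Filter.eventually_of_mem self_mem_nhdsWithin fun s hs => hg3 s hs)
      simpa using h1
    have hw1 : ∀ y ∈ C, ⟪w, y⟫_ℝ ≤ ⟪w, x⟫_ℝ := by
      refine hsupp w _ fun y hy => ?_
      have := hg1 y hy
      rw [hw] at this
      linarith
    have hc2 : ⟪w, x⟫_ℝ ≤ c := by
      refine hsupp w c (fun y hy => ?_) x hx
      have := hg1 y hy
      rw [hw] at this
      exact this.le
    have hw0 : w ≠ 0 := by
      rintro rfl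
      have h1 := hg1 a ha
      rw [hw, inner_zero_left] at h1
      rw [inner_zero_left] at hc1
      linarith
    have hwi : 0 ≤ ⟪w, vert d i⟫_ℝ := by
      have := hg3 1 one_pos
      linarith
    obtain ⟨b, hb, hwb⟩ := hs x hx u w hu0 hw0 hu1 hw1
    rw [hwb, inner_smul_left] at hwi
    simp only [conj_trivial] at hwi
    nlinarith

end Pool.Agent.R753.HS
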